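import Pool.Agent.TH152.CV.Torus

/-!
MP_b9fedf_ag, Q1: maps from tori and entire curves, for abelian covers of projective space; relative
to a closed subset.
-/

set_option autoImplicit false

namespace Pool.Agent.Results.MP_b9fedf_ag.AbelianCovers

open Pool.Agent.W602.Cov Pool.Agent.W602.Cov.Cover Pool.Agent.TH152.CV

/-- Let `X` be an abelian cover of projective `n`-space, with the equations
`y k ^ m k = ∏ i, ℓ i (x) ^ e k i` in a weighted projective space, where the `ℓ i` are any linear
forms and `n (n + 1) (n + 2) ∑ i, e k i < 2 m k` for all `k`, and let `Z` be a closed subset of `X`,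
given by weighted homogeneous polynomials. If all nonconstant holomorphic maps from one-dimensional
complex tori to `X` have their images in `Z`, then all nonconstant entire curves in `X` lie in `Z`.
In particular, if there are no such maps from tori, then there are no nonconstant entire curves in
`X`. -/
theorem result {n q r : ℕ} (X : Cover n q r) (hB : Big X) :
    (∀ Z : Set (Poly n r), (∀ G ∈ Z, X.Hom G) → TorusIn X Z → CurvesIn X Z) ∧
      (EllRigid X → ∀ x y, ¬ X.EntireCurve x y) := by
  refine ⟨fun Z hZ h => h.curves hB hZ, fun h x y hxy => ?_⟩
  obtain ⟨u, hu⟩ := exists_of_curve hB hxy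
  exact h.no_split u hu

end Pool.Agent.Results.MP_b9fedf_ag.AbelianCovers
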