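import Mathlib
import Pool.Agent.TH143.Gen

/-!
Holomorphic curves given by linear differential equations in projective varieties without rational
curves are algebraic over the coefficients of the equations.
-/

set_option autoImplicit false

namespace Pool.Agent.Results.MP_b9fedf_ag.AlgebraicOverCoefficients

open MvPolynomial Metric Set Filter Topology
open Pool.Agent.TH143 Pool.Agent.W603.BP

variable {N : ℕ} {ι : Type}

/-- The projective variety `F = 0` contains no rational curve: every morphism from the affine line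
to it, given by polynomials without common zeros, is constant. -/
def NoRationalCurve (F : ι → MvPolynomial (Fin (N + 1)) ℂ) : Prop :=
  ∀ P : Fin (N + 1) → Polynomial ℂ, (∀ t, ∃ j, (P j).eval t ≠ 0) →
    (∀ t i, eval (fun j => (P j).eval t) (F i) = 0) →
    ∀ s t j k, (P j).eval s * (P k).eval t = (P k).eval s * (P j).eval t

theorem false_of_gm {F : ι → MvPolynomial (Fin (N + 1)) ℂ} (hno : NoRationalCurve F)
    {P : Fin (N + 1) → Polynomial ℂ} (hP : ∀ t, ∃ j, (P j).eval t ≠ 0) (hG : IsGmCurve F 1 P) :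
    False := by
  obtain ⟨s, t, hs, ht, j, k, hst⟩ := hG.nonconst
  apply hst
  apply hno P hP
  have h1 : ∀ i t, eval (fun j => (P j).eval t) (F i) = (aeval P (F i) : Polynomial ℂ).eval t := by
    intro i t
    have h2 : (aeval P (F i) : Polynomial ℂ).eval t
        = (Polynomial.aeval t : Polynomial ℂ →ₐ[ℂ] ℂ) (aeval P (F i)) := by
      rw [Polynomial.coe_aeval_eq_eval]
    rw [h2, comp_aeval_apply, ← aeval_eq_eval]
    rfl
  intro t i
  rw [h1]
  have h3 : (aeval P (F i) : Polynomial ℂ) = 0 := by
    apply Polynomial.eq_zero_of_infinite_isRoot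
    refine Set.Infinite.mono ?_ (Set.finite_singleton (0 : ℂ)).infinite_compl
    intro t ht
    change (aeval P (F i) : Polynomial ℂ).eval t = 0
    rw [← h1]
    exact (hG.mem t ht).1 i
  rw [h3, Polynomial.eval_zero]

/-- Let `X` be the projective variety `F = 0`, and suppose that it contains no rational curve.
Let `f` be a holomorphic map from a domain `Ω` to `X` whose homogeneous coordinates satisfy
nontrivial linear differential equations with coefficients in a ring `B` of holomorphic functions
on `Ω` which is closed under differentiation. Then `f` is algebraic over `B`. An entire curve in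
`X` whose homogeneous coordinates satisfy linear differential equations with polynomial
coefficients is constant, and a holomorphic map from the punctured disc to `X` whose homogeneous
coordinates satisfy linear differential equations with coefficients meromorphic at the origin
extends to the disc. -/
theorem result (F : ι → MvPolynomial (Fin (N + 1)) ℂ) (hF : ∀ i, ∃ d, (F i).IsHomogeneous d)
    (hno : NoRationalCurve F) :
    (∀ (Ω : Set ℂ) (B : Subalgebra ℂ (ℂ → ℂ)), IsOpen Ω → IsPreconnected Ω → DiffRing Ω B →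
      ∀ f : ℂ → Fin (N + 1) → ℂ, (∀ j, AnalyticOnNhd ℂ (fun z => f z j) Ω) →
        (∀ z ∈ Ω, ∀ i, eval (f z) (F i) = 0) → (∀ j, LinOver Ω B (fun z => f z j)) →
        ∀ j k, (∃ z ∈ Ω, f z k ≠ 0) → AlgOver Ω B (fun z => f z j) (fun z => f z k)) ∧
    (∀ f : ℂ → Fin (N + 1) → ℂ, (∀ j, Differentiable ℂ (fun z => f z j)) → (∀ z, f z ≠ 0) →
      (∀ z i, eval (f z) (F i) = 0) → (∀ j, PolODE (fun z => f z j)) →
      ∀ z w, ∃ c : ℂ, f w = c • f z) ∧
    (∀ f : ℂ → Fin (N + 1) → ℂ,
      (∀ j, AnalyticOnNhd ℂ (fun w => f w j) {w : ℂ | w ≠ 0 ∧ ‖w‖ < 1}) →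
      (∀ w : ℂ, w ≠ 0 → ‖w‖ < 1 → f w ≠ 0) →
      (∀ w : ℂ, w ≠ 0 → ‖w‖ < 1 → ∀ i, eval (f w) (F i) = 0) →
      (∀ j, LinODE (fun w => f w j)) → Extends f) := by
  have h1Q : (1 : MvPolynomial (Fin (N + 1)) ℂ).IsHomogeneous 0 := isHomogeneous_one _ _
  refine ⟨?_, ?_, ?_⟩
  · intro Ω B hΩ hΩc hB f hf hX hlin j k hk
    by_contra hcon
    obtain ⟨z0, hz0, h⟩ := gen_local hΩ hΩc hB f hf hlin k j hk hcon
    obtain ⟨z, w, hw, hw1, ⟨t, ht, hnc⟩, hR⟩ := h.exists
    have hwk : w 1 ≠ 0 := by
      intro h0
      apply hnc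
      rw [h0]
      simp
    obtain ⟨P, hP, hP1, -⟩ := gm_of_laur F hF 1 h1Q w hw hwk
      (fun i t ht => hR (F i) (fun x hx => hX x hx i) t ht)
      (fun t _ => by rw [map_one]; exact one_ne_zero) ⟨t, ht, k, j, hnc⟩
    exact false_of_gm hno hP hP1
  · intro f hf hne hX hlin z w
    by_contra hcon
    have hnc : ∃ z w j k, f z j * f w k ≠ f z k * f w j := by
      by_contra hall
      push Not at hall
      apply hcon
      obtain ⟨l, hl⟩ := Function.ne_iff.mp (hne z)
      have hl' : f z l ≠ 0 := hl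
      refine ⟨f w l / f z l, funext fun j => ?_⟩
      rw [Pi.smul_apply, smul_eq_mul]
      have := hall z w j l
      field_simp
      linear_combination -this
    obtain ⟨R, h⟩ := entire_main F hF 1 h1Q f hf hne
      (fun z => ⟨fun i => hX z i, by rw [map_one]; exact one_ne_zero⟩)
      (linSys_of_polODE f hf hlin) hnc
    obtain ⟨z0, hz0⟩ : ∃ z0 : ℂ, R < ‖z0‖ := by
      refine ⟨((|R| + 1 : ℝ) : ℂ), ?_⟩
      rw [Complex.norm_real, Real.norm_of_nonneg (by positivity)]
      linarith [le_abs_self R]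
    obtain ⟨z, P, hP, hP1, -⟩ := (h z0 hz0).exists
    exact false_of_gm hno hP hP1
  · intro f hf hne hX hlin
    by_contra hcon
    obtain ⟨δ, hδ, -, h⟩ := punct_main F hF 1 h1Q f hf (fun w hw => hne w hw.1 hw.2)
      (fun w hw => ⟨fun i => hX w hw.1 hw.2 i, by rw [map_one]; exact one_ne_zero⟩)
      (linSys_of_linODE f one_pos hf hlin) hcon
    obtain ⟨z0, hz0⟩ := PB_nonempty hδ
    obtain ⟨z, P, hP, hP1, -⟩ := (h z0 hz0).exists
    exact false_of_gm hno hP hP1

end Pool.Agent.Results.MP_b9fedf_ag.AlgebraicOverCoefficients
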