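import Pool.Agent.TH600.LK.Ell

/-!
# Entire curves built over elliptic functions by exponentials, integrations and gap series

Let `B` be a ring of meromorphic functions on the plane which is closed under differentiation and of
transcendence degree at most one over the complex numbers (for example the elliptic functions with
given periods). A tower function over `B` is a meromorphic function on the plane which is obtained
from the functions in `B` by additions, multiplications, exponentials of entire functions and
integrations. We consider the entire curves in a complex projective algebraic set `X` with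
homogeneous coordinates in the ring generated by the tower functions over `B` and by all functions
`g (ψ z)` with `g` an entire function with Hadamard gaps and `ψ` a nonconstant entire tower function
over `B`.

The Zariski closure of the union of the images of the nonconstant curves of this kind (for all `B`)
is the Zariski closure of the union of the images of the nonconstant holomorphic maps from
one-dimensional complex tori to `X`. Every nonconstant curve of this kind which is not contained in
the Zariski closure of the union of the rational curves in `X` is doubly periodic. If every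
holomorphic map from a one-dimensional complex torus to `X` is constant, then every curve of this
kind in `X` is constant.
-/

set_option autoImplicit false

namespace Pool.Agent.Results.MP_b9fedf_ag.EllipticTowers

open Filter MvPolynomial
open scoped LinearAlgebra.Projectivization
open Pool.Agent.TH143.EL
open Pool.Agent.TH143.HE (RatCurvesIn IsPtP NonConst)
open Pool.Agent.TH600.LK (TowFun TowRing tow_dichotomy tow_main towFun_id torus_coords_ell)

variable {N : ℕ}

/-- the Zariski closure of a set of points of the projective space -/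
def ZClosure (S : Set (ℙ ℂ (Fin (N + 1) → ℂ))) : Set (ℙ ℂ (Fin (N + 1) → ℂ)) :=
  {p | ∀ G : MvPolynomial (Fin (N + 1)) ℂ, (∃ d, G.IsHomogeneous d) →
    (∀ x ∈ S, eval x.rep G = 0) → eval p.rep G = 0}

/-- nonconstant entire curves in the projective algebraic set of `I` -/
structure EntireCurve (I : Ideal (MvPolynomial (Fin (N + 1)) ℂ))
    (f : ℂ → ℙ ℂ (Fin (N + 1) → ℂ)) : Prop where
  hol : HolMap f
  mem : ∀ z, InV I (f z)
  nonconst : ∃ z w, f z ≠ f w

/-- Entire curves with homogeneous coordinates in the ring generated by the tower functions over a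
differential ring `B` of meromorphic functions of transcendence degree at most one, and by the gap
series in a nonconstant entire tower function `ψ` over `B`. -/
def TowerCurve (f : ℂ → ℙ ℂ (Fin (N + 1) → ℂ)) : Prop :=
  ∃ (B : Subalgebra ℂ (ℂ → ℂ)) (ψ : ℂ → ℂ), TrOne B ∧ TowFun B ψ ∧ Differentiable ℂ ψ ∧
    (∃ z w, ψ z ≠ ψ w) ∧ ∃ h : ℂ → Fin (N + 1) → ℂ, (∀ j, (fun z => h z j) ∈ TowRing B ψ) ∧
      ∀ᶠ z in codiscrete ℂ, Rep (f z) (h z)

/-- entire curves which factor through a one-dimensional complex torus -/
def DoublyPeriodic (f : ℂ → ℙ ℂ (Fin (N + 1) → ℂ)) : Prop :=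
  ∃ ω₁ ω₂ : ℂ, LinearIndependent ℝ ![ω₁, ω₂] ∧ (∀ z, f (z + ω₁) = f z) ∧ ∀ z, f (z + ω₂) = f z

/-- the special set given by the one-dimensional complex tori -/
def SpTor (I : Ideal (MvPolynomial (Fin (N + 1)) ℂ)) : Set (ℙ ℂ (Fin (N + 1) → ℂ)) :=
  ZClosure {x | ∃ f, EntireCurve I f ∧ DoublyPeriodic f ∧ ∃ z, f z = x}

/-- the special set given by tower curves -/
def SpTow (I : Ideal (MvPolynomial (Fin (N + 1)) ℂ)) : Set (ℙ ℂ (Fin (N + 1) → ℂ)) :=
  ZClosure {x | ∃ f, EntireCurve I f ∧ TowerCurve f ∧ ∃ z, f z = x}

/-- the closure of the union of the rational curves: the nonconstant maps from the affine line -/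
def SpRat (I : Ideal (MvPolynomial (Fin (N + 1)) ℂ)) : Set (ℙ ℂ (Fin (N + 1) → ℂ)) :=
  ZClosure {x | ∃ p : Fin (N + 1) → Polynomial ℂ, (∀ t y, Rep y (fun j => (p j).eval t) →
    InV I y) ∧ (∃ j k u v, (p j).eval u * (p k).eval v ≠ (p k).eval u * (p j).eval v) ∧
      ∃ t, Rep x fun j => (p j).eval t}

theorem subset_ZClosure (S : Set (ℙ ℂ (Fin (N + 1) → ℂ))) : S ⊆ ZClosure S :=
  fun x hx _ _ h => h x hx

/-- the ideal generated by the forms vanishing on `S` -/
noncomputable def idealOf (S : Set (ℙ ℂ (Fin (N + 1) → ℂ))) :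
    Ideal (MvPolynomial (Fin (N + 1)) ℂ) :=
  Ideal.span {G | (∃ d, G.IsHomogeneous d) ∧ ∀ x ∈ S, eval x.rep G = 0}

theorem eval_idealOf {S : Set (ℙ ℂ (Fin (N + 1) → ℂ))} {x : ℙ ℂ (Fin (N + 1) → ℂ)} (hx : x ∈ S)
    {G : MvPolynomial (Fin (N + 1)) ℂ} (hG : G ∈ idealOf S) : eval x.rep G = 0 := by
  have h1 : idealOf S ≤ RingHom.ker (eval x.rep) := by
    unfold idealOf
    rw [Ideal.span_le]
    intro G hG
    exact hG.2 x hx
  exact h1 hG

theorem inV_idealOf_iff {S : Set (ℙ ℂ (Fin (N + 1) → ℂ))} {p : ℙ ℂ (Fin (N + 1) → ℂ)} :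
    InV (idealOf S) p ↔ p ∈ ZClosure S := by
  constructor
  · intro h G hG hGS
    exact h G (Ideal.subset_span ⟨hG, hGS⟩) hG
  · intro h G hG hGh
    exact h G hGh fun x hx => eval_idealOf hx hG

/-- Let `X` be the projective algebraic set of `I`.

(1) The Zariski closure of the union of the nonconstant tower curves in `X` is the Zariski closure
of the union of the images of the nonconstant holomorphic maps from one-dimensional complex tori.

(2) Every nonconstant tower curve in `X` which is not contained in the Zariski closure of the union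
of the rational curves in `X` is doubly periodic.

(3) If every holomorphic map from a one-dimensional complex torus to `X` is constant, then every
tower curve in `X` is constant. -/
theorem result (I : Ideal (MvPolynomial (Fin (N + 1)) ℂ)) :
    SpTow I = SpTor I ∧
    (∀ f, EntireCurve I f → TowerCurve f → (∀ z, f z ∈ SpRat I) ∨ DoublyPeriodic f) ∧
    ((∀ ω₁ ω₂ : ℂ, LinearIndependent ℝ ![ω₁, ω₂] → ∀ t : ℂ → ℙ ℂ (Fin (N + 1) → ℂ), HolMap t →
        (∀ z, t (z + ω₁) = t z) → (∀ z, t (z + ω₂) = t z) → (∀ z, InV I (t z)) →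
        ∀ z w, t z = t w) →
      ∀ f, HolMap f → (∀ z, InV I (f z)) → TowerCurve f → ∀ z w, f z = f w) := by
  classical
  refine ⟨?_, ?_, ?_⟩
  · apply Set.Subset.antisymm
    · have hT : TorusMapsIn I (idealOf {x | ∃ f, EntireCurve I f ∧ DoublyPeriodic f ∧
          ∃ z, f z = x}) := by
        intro ω₁ ω₂ hind f hf h1 h2 hI hnc z
        rw [inV_idealOf_iff]
        exact subset_ZClosure _ ⟨f, ⟨hf, hI, hnc⟩, ⟨ω₁, ω₂, hind, h1, h2⟩, z, rfl⟩
      intro p hp G hG hGS
      apply hp G hG
      rintro x ⟨f, ⟨hf, hI, hnc⟩, ⟨B, ψ, hB, hψ, hd, hn, h, hl, hr⟩, z, rfl⟩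
      have h3 := tow_main hT hB hψ hd hn hf hl hr hI hnc z
      rw [inV_idealOf_iff] at h3
      exact h3 G hG hGS
    · intro p hp G hG hGS
      apply hp G hG
      rintro x ⟨f, ⟨hf, hI, hnc⟩, ⟨ω₁, ω₂, hind, h1, h2⟩, z, rfl⟩
      obtain ⟨h, hl, hr⟩ := torus_coords_ell hf h1 h2
      exact hGS _ ⟨f, ⟨hf, hI, hnc⟩, ⟨Ell ω₁ ω₂, fun z => z, trOne_ell hind, towFun_id _,
        differentiable_id, ⟨0, 1, zero_ne_one⟩, h, fun j =>
          Algebra.subset_adjoin (Or.inl (TowFun.base (hl j))), hr⟩, z, rfl⟩
  · rintro f ⟨hf, hI, hnc⟩ ⟨B, ψ, hB, hψ, hd, hn, h, hl, hr⟩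
    set S : Set (ℙ ℂ (Fin (N + 1) → ℂ)) := {x | ∃ p : Fin (N + 1) → Polynomial ℂ,
      (∀ t y, Rep y (fun j => (p j).eval t) → InV I y) ∧
      (∃ j k u v, (p j).eval u * (p k).eval v ≠ (p k).eval u * (p j).eval v) ∧
        ∃ t, Rep x fun j => (p j).eval t} with hS
    have hR : RatCurvesIn (RingHom.id ℂ) I (idealOf S) := by
      intro p hp hncp u G hG hGh
      obtain ⟨j0, k0, u1, v1, hne⟩ := hncp
      -- the polynomial vanishes where the tuple does not vanish
      have hpj : ∃ j, p j ≠ 0 := by
        by_contra h0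
        push Not at h0
        rw [h0 j0, h0 k0] at hne
        simp at hne
      obtain ⟨j1, hj1⟩ := hpj
      have hzero : (aeval p G : Polynomial ℂ) = 0 := by
        apply nc_poly (q := fun z => z) (fun z => analyticAt_id.meromorphicAt) ?_ ?_
        · rintro ⟨c, hc⟩
          obtain ⟨z0, hz0⟩ := hc.exists
          have h2 : ∀ᶠ z in nhds z0, z = c := codis_nhds hc hz0
          have h3 := infinite_of_mem_nhds z0 h2
          exact h3 ((Set.finite_singleton c).subset fun z hz => hz)
        · filter_upwards [poly_codis hj1] with t ht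
          rw [eval_comp_poly]
          have hv : (fun j => (p j).eval t) ≠ 0 := fun h0 => ht (congrFun h0 j1)
          let x : ℙ ℂ (Fin (N + 1) → ℂ) := Projectivization.mk ℂ _ hv
          have hx : Rep x fun j => (p j).eval t := ⟨hv, rfl⟩
          have hxS : x ∈ S := by
            refine ⟨p, fun t' y hy => ?_, ⟨j0, k0, u1, v1, hne⟩, t, hx⟩
            rw [inV_iff hy]
            intro G' hG' hGh'
            have := hp t' G' hG' hGh'
            rwa [eval₂_id] at this
          have h1 : InV (idealOf S) x := inV_idealOf_iff.2 (subset_ZClosure _ hxS)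
          exact (inV_iff hx).1 h1 G hG hGh
      rw [eval₂_id, ← eval_comp_poly, hzero, Polynomial.eval_zero]
    rcases tow_dichotomy hR hB hψ hd hn hf hl hr hI hnc with h1 | h1
    · left
      intro z
      exact inV_idealOf_iff.1 (h1 z)
    · right
      exact h1
  · rintro hT f hf hI ⟨B, ψ, hB, hψ, hd, hn, h, hl, hr⟩ z w
    by_contra hzw
    have h3 := tow_main (I := I) (I' := ⊤) (fun ω₁ ω₂ hind t ht h4 h5 h6 h7 => by
      obtain ⟨a, b, hab⟩ := h7
      exact absurd (hT ω₁ ω₂ hind t ht h4 h5 h6 a b) hab) hB hψ hd hn hf hl hr hI ⟨z, w, hzw⟩ z 1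
      Submodule.mem_top ⟨0, isHomogeneous_one _ _⟩
    rw [map_one] at h3
    exact one_ne_zero h3

end Pool.Agent.Results.MP_b9fedf_ag.EllipticTowers
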