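import Pool.Agent.TH600.LE.Fin

/-!
# Entire curves built by exponentials, integrations and gap series

Let `L` be the smallest set of entire functions which contains the constants and is closed under
addition, multiplication, exponentials and integration, and let `ψ` be a nonconstant element of `L`.
We consider the entire curves `f` in the projective space with homogeneous coordinates in the ring
generated by `L` and by all functions `g (ψ z)` with `g` an entire function with Hadamard gaps.

The Zariski closure of the image of `f` is unirational. If `f` is a nonconstant curve in a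
projective algebraic set `X`, and `Y` is a projective algebraic set which contains the images of all
nonconstant holomorphic maps from one-dimensional complex tori to `X`, then `f` lies in `Y`; in
particular there are such maps to `X`.
-/

set_option autoImplicit false

namespace Pool.Agent.Results.MP_b9fedf_ag.ExponentialTowers

open Filter MvPolynomial
open scoped LinearAlgebra.Projectivization
open Pool.Agent.TH143.EL
open Pool.Agent.TH600.LE (ExpPrim ExpGapRing)

/-- Let `f` be a holomorphic map from the plane to the projective space whose homogeneous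
coordinates are in the ring generated by the entire functions which are built from the constants by
additions, multiplications, exponentials and integrations, and by the gap series in a nonconstant
function `ψ` of this kind.

(1) The Zariski closure of the image of `f` is unirational: it is the Zariski closure of the image
of a rational map from an affine space to the projective space, given by polynomials.

(2) If `f` is nonconstant and lies in the projective algebraic set of the ideal `I`, and if every
nonconstant holomorphic map from a one-dimensional complex torus to this set has its image in the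
projective algebraic set of the ideal `I'`, then `f` lies in the projective algebraic set of `I'`.

(3) If every holomorphic map from a one-dimensional complex torus to the projective algebraic set of
the ideal `I` is constant, and `f` lies in this set, then `f` is constant. -/
theorem result {N : ℕ} {ψ : ℂ → ℂ} (hψ : ExpPrim ψ) (hn : ∃ z w, ψ z ≠ ψ w)
    {f : ℂ → ℙ ℂ (Fin (N + 1) → ℂ)} (hf : HolMap f) {h : ℂ → Fin (N + 1) → ℂ}
    (hh : ∀ j, (fun z => h z j) ∈ ExpGapRing ψ)
    (hr : ∀ᶠ z in codiscrete ℂ, Rep (f z) (h z)) :
    (∃ (M : ℕ) (F : Fin (N + 1) → MvPolynomial (Fin M) ℂ), (∃ j, F j ≠ 0) ∧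
      ∀ G : MvPolynomial (Fin (N + 1)) ℂ, (∃ d, G.IsHomogeneous d) →
        ((∀ z, eval (f z).rep G = 0) ↔
          ∀ v : Fin M → ℂ, eval (fun j => eval v (F j)) G = 0)) ∧
    (∀ I I' : Ideal (MvPolynomial (Fin (N + 1)) ℂ), TorusMapsIn I I' → (∀ z, InV I (f z)) →
      (∃ z w, f z ≠ f w) → ∀ z, InV I' (f z)) ∧
    ∀ I : Ideal (MvPolynomial (Fin (N + 1)) ℂ),
      (∀ ω₁ ω₂ : ℂ, LinearIndependent ℝ ![ω₁, ω₂] → ∀ t : ℂ → ℙ ℂ (Fin (N + 1) → ℂ), HolMap t →
        (∀ z, t (z + ω₁) = t z) → (∀ z, t (z + ω₂) = t z) → (∀ z, InV I (t z)) →
        ∀ z w, t z = t w) → (∀ z, InV I (f z)) → ∀ z w, f z = f w := by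
  obtain ⟨M, x, hx, hhx⟩ := Pool.Agent.TH600.LE.exists_param hψ hn hh
  obtain ⟨F, hF0, hF⟩ := Pool.Agent.TH600.LE.unirational_closure hf _ hr hx hhx
  have h2 : ∀ I I' : Ideal (MvPolynomial (Fin (N + 1)) ℂ), TorusMapsIn I I' →
      (∀ z, InV I (f z)) → (∃ z w, f z ≠ f w) → ∀ z, InV I' (f z) :=
    fun I I' hT hI hnc => Pool.Agent.TH600.LE.rat_of_closure (ratCurves_of_torus hT) hF0 hF hI hnc
  refine ⟨⟨M, F, hF0, hF⟩, h2, fun I hT hI z w => ?_⟩
  by_contra hzw
  have h3 := h2 I ⊤ (fun ω₁ ω₂ hind t ht h4 h5 h6 h7 => by
    obtain ⟨a, b, hab⟩ := h7
    exact absurd (hT ω₁ ω₂ hind t ht h4 h5 h6 a b) hab) hI ⟨z, w, hzw⟩ z 1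
    Submodule.mem_top ⟨0, isHomogeneous_one _ _⟩
  rw [map_one] at h3
  exact one_ne_zero h3

end Pool.Agent.Results.MP_b9fedf_ag.ExponentialTowers
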